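import Pool.Agent.Helper452.ContQ1
import Pool.Agent.Helper452.ContNoQ2

namespace Pool.Agent.Results.MP_19acf5_gt.BothParts

open Pool.Agent.Helper452.Cont

universe u

/-- Hypothesis (H) of the problem, for a continuum `X` and a point `p` of `X`: the remainder of
the Stone-Cech compactification of `X - {p}` is an indecomposable continuum. -/
def HypH (X : Type u) [TopologicalSpace X] (p : X) : Prop :=
  IsIndecomposableContinuum (Rem {x : X // x ≠ p})

/-- `K` is a subcontinuum of `X` that is irreducible from `q` to `p`: it is compact and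
connected, it contains `q` and `p`, and no proper subcontinuum of `K` contains both. -/
def IrreducibleFromTo {X : Type u} [TopologicalSpace X] (K : Set X) (q p : X) : Prop :=
  IsCompact K ∧ IsConnected K ∧ q ∈ K ∧ p ∈ K ∧
    ∀ L : Set X, L ⊆ K → IsCompact L → IsConnected L → q ∈ L → p ∈ L → L = K

/-- The conclusion of Q2: `X = M ∪ K` with `M` compact, `p ∉ M`, and `K` a subcontinuum that is
irreducible from some point `q` to `p`. -/
def ConclusionQ2 (X : Type u) [TopologicalSpace X] (p : X) : Prop :=
  ∃ (M : Set X) (q : X) (K : Set X), IsCompact M ∧ p ∉ M ∧ IrreducibleFromTo K q p ∧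
    M ∪ K = Set.univ

/-- Both parts of the problem. Q1 is true: under (H) the continuum `X` is connected im kleinen
at `p`. Q2 is false: there is a continuum `X` with a point `p` that satisfies (H) for which the
conclusion of Q2 fails. -/
theorem result :
    (∀ (X : Type u) [TopologicalSpace X] [TopologicalSpace.MetrizableSpace X] [CompactSpace X]
      [ConnectedSpace X] (p : X), HypH X p → ConnectedImKleinenAt p) ∧
    (∃ (X : Type) (_ : TopologicalSpace X) (_ : TopologicalSpace.MetrizableSpace X)
      (_ : CompactSpace X) (_ : ConnectedSpace X) (p : X), HypH X p ∧ ¬ ConclusionQ2 X p) := by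
  refine ⟨fun X _ _ _ _ p hH => cik_of_indecomposable_remainder p hH, ?_⟩
  refine ⟨EX, inferInstance, inferInstance, inferInstance, inferInstance, ep, indec_EY, ?_⟩
  rintro ⟨M, q, K, hM, hpM, ⟨hK, hKc, hq, hp, hirr⟩, hMK⟩
  exact not_irreducible hM hpM hK hKc hq hp hirr hMK

end Pool.Agent.Results.MP_19acf5_gt.BothParts
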