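import Pool.Agent.Helper452.ContQ1

namespace Pool.Agent.Results.MP_19acf5_gt.ConnectedImKleinen

open Pool.Agent.Helper452.Cont

universe u

/-- If `X` is a continuum, `p` is a point of `X` and the remainder of the Stone-Cech
compactification of `X - {p}` is an indecomposable continuum, then `X` is connected im kleinen
at `p`. -/
theorem result (X : Type u) [TopologicalSpace X] [TopologicalSpace.MetrizableSpace X]
    [CompactSpace X] [ConnectedSpace X] (p : X)
    (hH : IsIndecomposableContinuum (Rem {x : X // x ≠ p})) : ConnectedImKleinenAt p :=
  cik_of_indecomposable_remainder p hH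

end Pool.Agent.Results.MP_19acf5_gt.ConnectedImKleinen
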